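import Mathlib
import Pool.Agent.MP_1b49f3_co.Defs
import Pool.Agent.MP_1b49f3_co.Effective
import Pool.Agent.MP_1b49f3_co.Upper

set_option autoImplicit false

/-!
# The maximum size of a super edge-magic graph of order `p` and girth `γ`

For every `γ ≥ 4` it is exactly `2 p - 5` for all `p ≥ 2 ^ 2 ^ 9 ^ γ`.
-/

namespace Pool.Agent.Results.MP_1b49f3_co.EventualMaximum

open Pool.Agent.MP_1b49f3_co

/-- The set of sizes of super edge-magic graphs of order `p` and girth `γ`. -/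
def sizes (p γ : ℕ) : Set ℕ :=
  {q | ∃ G : SimpleGraph (Fin p), SuperEdgeMagic G ∧ G.girth = γ ∧ Nat.card G.edgeSet = q}

/-- For every `γ ≥ 4` and all `p ≥ 2 ^ (2 ^ (9 ^ γ))`, super edge-magic graphs of order `p` and
girth exactly `γ` exist and their maximum size is `2 p - 5`. -/
theorem result : ∀ γ : ℕ, 4 ≤ γ → ∀ p : ℕ, 2 ^ (2 ^ (9 ^ γ)) ≤ p → IsGreatest (sizes p γ) (2 * p - 5) := by
  intro γ hγ p hp
  refine ⟨effective γ hγ p hp, ?_⟩
  rintro q ⟨G, hG, hg, hq⟩
  have h4 : 4 ≤ p := by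
    refine le_trans ?_ hp
    calc 4 = 2 ^ 2 := by norm_num
      _ ≤ 2 ^ (2 ^ (9 ^ γ)) := by
        apply Nat.pow_le_pow_right (by norm_num)
        calc 2 = 2 ^ 1 := by norm_num
          _ ≤ 2 ^ (9 ^ γ) := Nat.pow_le_pow_right (by norm_num) (Nat.one_le_pow _ _ (by norm_num))
  have := upper p h4 G hG (by rw [hg]; exact hγ)
  omega

end Pool.Agent.Results.MP_1b49f3_co.EventualMaximum
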