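import Pool.Agent.GFv.Upp

set_option autoImplicit false

/-!
# The maximum size of a super edge-magic graph of girth five, for every order
-/

namespace Pool.Agent.Results.MP_1b49f3_co.GirthFive

open Pool.Agent.MP_1b49f3_co Pool.Agent.GFv

/-- The set of sizes of super edge-magic graphs of order `p` and girth `γ`. -/
def sizes (p γ : ℕ) : Set ℕ :=
  {q | ∃ G : SimpleGraph (Fin p), SuperEdgeMagic G ∧ G.girth = γ ∧ Nat.card G.edgeSet = q}

theorem in_big (p : ℕ) (hp : 19 ≤ p) : 2 * p - 5 ∈ sizes p 5 := by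
  obtain ⟨h1, h2, h3⟩ := big p hp
  have e : 2 * p - 4 = (2 * p - 5) + 1 := by omega
  rw [e] at h1 h2 h3
  exact ⟨_, gl_sem (LL p) (2 * p - 5) p h1, h2, h3⟩

theorem in_full (p : ℕ) (hp : p ∈ ([5, 10, 13, 14, 15, 16, 17, 18] : List ℕ)) :
    2 * p - 5 ∈ sizes p 5 := by
  obtain ⟨h1, h2, h3⟩ := sm_full p hp
  have h4 : 5 ≤ p := by
    fin_cases hp <;> omega
  have e : 2 * p - 4 = (2 * p - 5) + 1 := by omega
  rw [e] at h1 h2 h3
  exact ⟨_, gl_sem (LT p) (2 * p - 5) p h1, h2, h3⟩

theorem in_less (p : ℕ) (hp : p ∈ ([6, 8, 9, 11, 12] : List ℕ)) : 2 * p - 6 ∈ sizes p 5 := by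
  obtain ⟨h1, h2, h3⟩ := sm_less p hp
  have h4 : 6 ≤ p := by
    fin_cases hp <;> omega
  have e : 2 * p - 5 = (2 * p - 6) + 1 := by omega
  rw [e] at h1 h2 h3
  exact ⟨_, gl_sem (LT p) (2 * p - 6) p h1, h2, h3⟩

/-- The maximum size `M(p, 5)` for every order `p`. -/
theorem result :
    (∀ p, p < 5 → sizes p 5 = ∅) ∧
    (∀ p, p = 5 ∨ p = 10 ∨ 13 ≤ p → IsGreatest (sizes p 5) (2 * p - 5)) ∧
    (∀ p, p = 6 ∨ p = 8 ∨ p = 9 ∨ p = 11 ∨ p = 12 → IsGreatest (sizes p 5) (2 * p - 6)) ∧
    IsGreatest (sizes 7 5) 7 := by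
  refine ⟨?_, ?_, ?_, ?_⟩
  · intro p hp
    ext q
    simp only [Set.mem_empty_iff_false, iff_false]
    rintro ⟨G, _, hg, _⟩
    exact few p hp G hg
  · intro p hp
    refine ⟨?_, ?_⟩
    · rcases Nat.lt_or_ge p 19 with h | h
      · refine in_full p ?_
        have : p = 5 ∨ p = 10 ∨ p = 13 ∨ p = 14 ∨ p = 15 ∨ p = 16 ∨ p = 17 ∨ p = 18 := by omega
        simpa using this
      · exact in_big p h
    · rintro q ⟨G, hG, hg, hq⟩
      have := upper p (by omega) G hG (by omega)
      omega
  · intro p hp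
    refine ⟨in_less p (by simpa using hp), ?_⟩
    classical
    rintro q ⟨G, hG, hg, hq⟩
    have hn := noc G (by omega)
    have hc : Nat.card G.edgeSet = G.edgeFinset.card := by
      rw [Nat.card_eq_fintype_card, ← SimpleGraph.edgeFinset_card]
    rw [hc] at hq
    rcases hp with h | h | h | h | h
    · subst h
      have := ex_small G hn (by simp) (by simp)
      simp only [Fintype.card_fin] at this
      omega
    · subst h
      have := ex_small G hn (by simp) (by simp)
      simp only [Fintype.card_fin] at this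
      omega
    · subst h
      have := ex_small G hn (by simp) (by simp)
      simp only [Fintype.card_fin] at this
      omega
    · subst h
      have := ex_eleven G hn (by simp)
      omega
    · subst h
      have := ex_twelve G hn (by simp)
      omega
  · refine ⟨⟨_, gl_sem (LT 7) 7 7 sm_seven.1, sm_seven.2.1, sm_seven.2.2⟩, ?_⟩
    classical
    rintro q ⟨G, hG, hg, hq⟩
    have hn := noc G (by omega)
    have hc : Nat.card G.edgeSet = G.edgeFinset.card := by
      rw [Nat.card_eq_fintype_card, ← SimpleGraph.edgeFinset_card]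
    have h8 := seven G hG hn
    have := ex_small G hn (by simp) (by simp)
    simp only [Fintype.card_fin] at this
    omega

end Pool.Agent.Results.MP_1b49f3_co.GirthFive
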