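import Pool.Agent.GFv.Top6
import Pool.Agent.GFv.Ext6

set_option autoImplicit false

/-!
# The maximum size of a super edge-magic graph of girth six

It is `2 p - 5` for every order `p ≥ 26` and less than `2 p - 5` for `6 ≤ p ≤ 19`.
-/

namespace Pool.Agent.Results.MP_1b49f3_co.GirthSix

open Pool.Agent.MP_1b49f3_co Pool.Agent.GFv

/-- The set of sizes of super edge-magic graphs of order `p` and girth `γ`. -/
def sizes (p γ : ℕ) : Set ℕ :=
  {q | ∃ G : SimpleGraph (Fin p), SuperEdgeMagic G ∧ G.girth = γ ∧ Nat.card G.edgeSet = q}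

theorem in_six (p : ℕ) (hp : 26 ≤ p) : 2 * p - 5 ∈ sizes p 6 := by
  obtain ⟨L, h1, h2, h3⟩ := has6 p hp
  have e : 2 * p - 4 = (2 * p - 5) + 1 := by omega
  rw [e] at h1 h2 h3
  exact ⟨_, gl_sem L (2 * p - 5) p h1, h2, h3⟩

/-- `M(p, 6) = 2 p - 5` for every order `p ≥ 26`, and `M(p, 6) ≤ 2 p - 6` for `6 ≤ p ≤ 19`. -/
theorem result :
    (∀ p, 26 ≤ p → IsGreatest (sizes p 6) (2 * p - 5)) ∧
    (∀ p, 6 ≤ p → p ≤ 19 → ∀ q ∈ sizes p 6, q ≤ 2 * p - 6) := by
  refine ⟨fun p hp => ⟨in_six p hp, ?_⟩, ?_⟩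
  · rintro q ⟨G, hG, hg, hq⟩
    have := upper p (by omega) G hG (by omega)
    omega
  · intro p h1 h2 q hq
    classical
    obtain ⟨G, hG, hg, hq⟩ := hq
    have hn := nod G (by omega)
    have hc : Nat.card G.edgeSet = G.edgeFinset.card := by
      rw [Nat.card_eq_fintype_card, ← SimpleGraph.edgeFinset_card]
    have := ext6 p h1 h2 (Fin p) G hn (by simp)
    omega

end Pool.Agent.Results.MP_1b49f3_co.GirthSix
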